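import Pool.Agent.W2helper94.TP.Main

set_option autoImplicit false

/-!
# Tree partition numbers of complete bipartite graphs with one large part

`MP_4e8562_co`, Q1, asks for the tree partition number `tp_r (K_{n,m})`: the least `k` such that for every colouring
of the edges with `r` colours the vertex set can be partitioned into the vertex sets of at most `k` monochromatic
trees. We show that for all `r ≥ 2`, `m ≥ 1` and `n ≥ 2 m r^(2 m)`

  `r + (r-1)^m ⌊(n-r)/r^m⌋ ≤ tp_r (K_{n,m}) ≤ r + (n-r) ((r-1)/r)^m`,

so that `tp_r (K_{n,m}) = r + s (r-1)^m` if `n = r + s r^m`; the tree cover number is at most `r + m - 1`, and is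
smaller than `tp_r (K_{n,m})`.

Proof. The vertices of the large part have types, which are functions `v` from the small part `B` to the colours. For a
partition let `y b` be the colour of the tree of `b`. A vertex whose type avoids `y` is alone, and the other trees
are at least as many as the values of `y`. For the colouring with `s` vertices of every type and, in addition, one
vertex of each constant type, the sum of these two numbers is at least `r + s (r-1)^m` for every `y`. Conversely, if all
constant types occur then every `y` gives a partition with exactly this number of trees, and the average over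
all `y` is `r + (n-r) ((r-1)/r)^m`. If the constant type `i` does not occur then the inverse of the tensor power of the
matrix `J - I` shows that some `y` is avoided by so few vertices that the `|B|` stars and the remaining
single vertices are good enough.
-/

open Pool.Agent.W2helper94.TP

namespace Pool.Agent.Results.MP_4e8562_co.LargeParts

/-- Let `r ≥ 2`, `m ≥ 1` and `n ≥ 2 m r^(2 m)`. Then
`r + (r-1)^m ⌊(n-r)/r^m⌋ ≤ tp_r (K_{n,m}) ≤ r + (n-r) ((r-1)/r)^m`; in particular
`tp_r (K_{n,m}) = r + s (r-1)^m` if `n = r + s r^m`. Moreover `tc_r (K_{n,m}) ≤ r + m - 1` and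
`tc_r (K_{n,m}) < tp_r (K_{n,m})`. -/
theorem result (n m r : ℕ) (hr : 2 ≤ r) (hm : 1 ≤ m) (hn : 2 * m * r ^ (2 * m) ≤ n) :
    ((r + (n - r) / r ^ m * (r - 1) ^ m : ℕ) : ℝ) ≤
      tp r (completeBipartiteGraph (Fin n) (Fin m)) ∧
    (tp r (completeBipartiteGraph (Fin n) (Fin m)) : ℝ) ≤ r + (n - r) * (((r : ℝ) - 1) / r) ^ m ∧
    (∀ s : ℕ, n = r + s * r ^ m →
      tp r (completeBipartiteGraph (Fin n) (Fin m)) = r + s * (r - 1) ^ m) ∧
    tc r (completeBipartiteGraph (Fin n) (Fin m)) ≤ r + (m - 1) ∧
    tc r (completeBipartiteGraph (Fin n) (Fin m)) < tp r (completeBipartiteGraph (Fin n) (Fin m)) :=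
  main hr hm hn

end Pool.Agent.Results.MP_4e8562_co.LargeParts
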